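import Pool.Agent.helper7.PQ.Spec
import Pool.Agent.helper83.OD.AllO

/-!
# Project pq:, module GV: the coefficients of `f * vvx^(2^b)` (adapted from helper33/OD/V16.lean).
-/

set_option autoImplicit false

open Finset PowerSeries

noncomputable section

namespace Pool.Agent.PQ

open Pool.Agent.EP

open Classical in
theorem GV_c (b : ℕ) (j : ℤ) : (vvx ^ (2 ^ b)).coeff j =
    if ∃ u : ℕ, u.Coprime 6 ∧ j = 2 ^ b * (u : ℤ) ^ 2 then 1 else 0 := by
  have hFRO := Pool.Agent.EP.FRO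
  have hV1 := Pool.Agent.OD.V1
  rw [hFRO]
  by_cases hd : (2 ^ b : ℤ) ∣ j
  · rw [if_pos hd, hV1]
    obtain ⟨c, rfl⟩ := hd
    have h2 : (2 ^ b : ℤ) ≠ 0 := pow_ne_zero _ (by norm_num)
    rw [Int.mul_ediv_cancel_left _ h2]
    by_cases h : ∃ u : ℕ, u.Coprime 6 ∧ c = (u : ℤ) ^ 2
    · rw [if_pos h, if_pos]
      obtain ⟨u, hu, rfl⟩ := h
      exact ⟨u, hu, rfl⟩
    · rw [if_neg h, if_neg]
      rintro ⟨u, hu, he⟩
      exact h ⟨u, hu, mul_left_cancel₀ h2 he⟩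
  · rw [if_neg hd, if_neg]
    rintro ⟨u, hu, rfl⟩
    exact hd ⟨(u : ℤ) ^ 2, rfl⟩

theorem GV : GV_stmt := by
  classical
  intro b k f hf M
  have hB : (1 : ℤ) ≤ 2 ^ b := one_le_pow₀ (by norm_num)
  have hB0 : (2 ^ b : ℤ) ≠ 0 := by positivity
  rw [HahnSeries.coeff_mul]
  symm
  refine Finset.sum_bij_ne_zero (fun (u : ℕ) _ _ => ((M - 2 ^ b * (u : ℤ) ^ 2, 2 ^ b * (u : ℤ) ^ 2) : ℤ × ℤ))
    ?_ ?_ ?_ ?_
  · intro u hu hne
    rw [uB, Finset.mem_filter] at hu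
    rw [Finset.mem_antidiagonal]
    refine ⟨?_, ?_, ?_⟩
    · rw [HahnSeries.mem_support]
      exact hne
    · rw [HahnSeries.mem_support, GV_c, if_pos ⟨u, hu.2.1, rfl⟩]
      exact one_ne_zero
    · ring
  · intro u hu _ u' hu' _ h
    have h1 : (2 ^ b : ℤ) * (u : ℤ) ^ 2 = 2 ^ b * (u' : ℤ) ^ 2 := (Prod.ext_iff.1 h).2
    have h2 : u ^ 2 = u' ^ 2 := by
      have : (u : ℤ) ^ 2 = (u' : ℤ) ^ 2 := mul_left_cancel₀ hB0 h1
      exact_mod_cast this
    exact Nat.pow_left_injective (n := 2) (by norm_num) h2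
  · rintro ⟨i, j⟩ hij hne
    rw [Finset.mem_antidiagonal] at hij
    obtain ⟨hi, hj, hs⟩ := hij
    rw [HahnSeries.mem_support] at hi
    rw [HahnSeries.mem_support, GV_c] at hj
    simp only at hs hi hj
    have hj' : ∃ u : ℕ, u.Coprime 6 ∧ j = 2 ^ b * (u : ℤ) ^ 2 := by
      by_contra h
      rw [if_neg h] at hj
      exact hj rfl
    obtain ⟨u, hu, rfl⟩ := hj'
    have hi2 : i = M - 2 ^ b * (u : ℤ) ^ 2 := by linarith
    subst hi2
    have hck : -(k : ℤ) ≤ M - 2 ^ b * (u : ℤ) ^ 2 := by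
      by_contra h
      exact hi (hf _ (not_le.1 h))
    have hle : 2 ^ b * (u : ℤ) ^ 2 ≤ M + k := by linarith
    have hu0 : (0 : ℤ) ≤ u := Int.natCast_nonneg u
    have hu1 : (u : ℤ) ≤ 2 ^ b * (u : ℤ) ^ 2 := by
      have h3 : (u : ℤ) ≤ (u : ℤ) ^ 2 := by
        rcases Nat.eq_zero_or_pos u with h4 | h4
        · rw [h4]
          norm_num
        · have h5 : (1 : ℤ) ≤ u := by exact_mod_cast h4
          nlinarith
      have h6 : (0 : ℤ) ≤ (u : ℤ) ^ 2 := by positivity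
      nlinarith
    refine ⟨u, ?_, ?_, rfl⟩
    · rw [uB, Finset.mem_filter, Finset.mem_range]
      refine ⟨?_, hu, ?_⟩
      · omega
      · zify
        rw [Int.toNat_of_nonneg (by nlinarith)]
        exact hle
    · exact hi
  · intro u hu hne
    rw [uB, Finset.mem_filter] at hu
    simp only
    rw [GV_c, if_pos ⟨u, hu.2.1, rfl⟩, mul_one]

end Pool.Agent.PQ
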